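import Mathlib
import Pool.Agent.Run7.h69.UA7
import Pool.Agent.Run7.h318.SH.Ht

/-!
# The universal family: the average of `(2 ^ rank * #Ш[2]) ^ 2` over the squares

As `Pool/Agent/Run7/h69/UA4.lean` and `UA7.lean` of helper69, with `2 ^ rank` replaced by
`2 ^ rank * #Ш[2]`.
-/

set_option autoImplicit false
set_option linter.unusedSectionVars false

namespace Run7.h318.SF

open Finset
open Pool.Agent.W262.RK hiding lk ff s1 s2
open Pool.Agent.W125.RK2 (NL_congr)
open Run7.h69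
open NA (T1 T2)
open Run7.h69.UF hiding RR RR_nonneg box0 box rank

/-- the number `2 ^ rank * #Ш[2]` is bounded by the local count -/
lemma rank {z : ℕ} (hz : 2 ≤ z) {t : ℤ × ℤ} {y N : ℕ} (hy : 1 ≤ y)
    (h0 : FF t ≠ 0) (hN : (FF t).natAbs < (y + 1) ^ N) :
    Run7.h318.SH.RR t.1 t.2 ≤
      4 ^ (z + 2) * 4 ^ N * 4 ^ ((T2 z y (FF t)).primeFactors.card) *
        NL (T1 z y (FF t)) (LT (ty t)) := by
  set s := T1 z y (FF t) with hs
  have hsd : s ∣ PP z y := NA.T1_dvd z y _
  have hs0 : s ≠ 0 := Nat.one_le_iff_ne_zero.1 (NX.dpos hsd)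
  have hodd : ∀ p : ℕ, p.Prime → p ∣ s → p ≠ 2 := by
    intro p hp h
    have h1 := (T1_facts hp h).1
    omega
  have hne : t.1 ≠ 0 ∧ t.2 ≠ 0 ∧ t.1 ≠ t.2 := by
    unfold FF at h0
    refine ⟨left_ne_zero_of_mul (left_ne_zero_of_mul h0),
      right_ne_zero_of_mul (left_ne_zero_of_mul h0), ?_⟩
    have := right_ne_zero_of_mul h0
    exact sub_ne_zero.1 this
  have hd := (Run7.h318.SH.rr_le s (LT (ty t)) t.1 t.2 hne.1 hne.2.1 hne.2.2
    (by
      rw [← Nat.not_even_iff_odd, even_iff_two_dvd]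
      intro h
      exact hodd 2 Nat.prime_two h rfl)
    ((PP_squarefree z y).squarefree_of_dvd hsd)
    (fun p hp hpd => xcl _ p)
    (fun p hpf hpd e1 e2 he1 he2 hsol => by
      have hpp : p.Prime := Fact.out
      obtain ⟨hzp, h1, h2⟩ := T1_facts hpp hpd
      exact LL_LE _ _ _ _ _ _ _ (Run7.h318.SH.locl2 _ _ _ p _ _ (hodd p hpp hpd)
        (fun _ => kp_ndvd hpp h1 h2) (locH hpp h1 h2)
        e1 e2 he1 he2 hsol))).2
  refine hd.trans (Nat.mul_le_mul_right _ ?_)
  have hc := bad hz hy h0 hN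
  rw [← hs] at hc
  calc _ ≤ 4 ^ ((z + 2) + N + (T2 z y (FF t)).primeFactors.card) :=
        Nat.pow_le_pow_right (by norm_num) (by omega)
    _ = _ := by rw [pow_add, pow_add]

/-- the quantity -/
noncomputable def RR (t : ℤ × ℤ) : ℝ := (Run7.h318.SH.RR t.1 t.2 : ℝ) ^ 2

lemma RR_nonneg (t : ℤ × ℤ) : 0 ≤ RR t := by
  unfold RR
  positivity

/-- **the average over the large squares** -/
theorem box0 (L : ℕ) : ∃ (X0 : ℕ) (B : ℝ), ∀ (x : ℤ × ℤ) (X : ℕ), x.1.natAbs ≤ X ^ L →
    x.2.natAbs ≤ X ^ L → X0 ≤ X → ∑ t ∈ SS x X, RR t ≤ B * (X : ℝ) ^ 2 := by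
  classical
  obtain ⟨z0, hz0⟩ := avg
  set z : ℕ := max z0 6 with hz
  have hz6 : 6 ≤ z := le_max_right _ _
  obtain ⟨C', havg⟩ := hz0 z (le_max_left _ _)
  obtain ⟨C, K, y0, hC0, hK1, hcn⟩ := count hz6
  set L1 : ℕ := 3 * L + 7 with hL1
  set y1 : ℕ := y0 + 2 with hy1
  have hp7 : ∀ p : ℕ, z < p → (7 : ℝ) ≤ p := fun p hp => by exact_mod_cast (by omega : 7 ≤ p)
  obtain ⟨X0, B, hB⟩ := NA.nt (F := FF) (S := SS) (N := fun X => (X : ℝ) ^ 2) (b := bb) (bv := bv)
    (r := bu) (z := z) (G := GS) (R := RR)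
    (Q := fun x X => (x.1.natAbs ≤ X ^ L ∧ x.2.natAbs ≤ X ^ L) ∧ y1 ≤ X)
    (A := 16) (C := C * 16 ^ (z + 2)) (D := 16 ^ L1) (C' := C') (M := 7) (g := 3) (K := K)
    (y0 := y1) (by omega) (by norm_num)
    (fun p _ hp => by
      have h := hp7 p hp
      unfold bb
      exact ⟨div_nonneg (by norm_num) (by linarith), by
        rw [div_le_div_iff₀ (by linarith) (by linarith)]
        linarith⟩)
    (fun p _ hp => by
      have h := hp7 p hp
      unfold bv
      exact ⟨div_nonneg (by norm_num) (by linarith), by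
        rw [div_le_div_iff₀ (by linarith) (by linarith)]
        linarith⟩)
    (fun p _ hp => by
      have h := hp7 p hp
      unfold bu
      exact ⟨by positivity, by gcongr; norm_num⟩)
    (fun X => by positivity) GS_nonneg RR_nonneg (by norm_num) (by positivity)
    (one_le_pow₀ (by norm_num)) (fun y s e hse => subG hse) havg (by
      intro x X y Y k hQ hy0 hzy hyK hXk s v u hs hv hu hsvu
      obtain ⟨⟨hx1, hx2⟩, hX⟩ := hQ
      have hy00 : y0 ≤ y := by omega
      set S := (SS x X).filter (fun t : ℤ × ℤ => T1 z y (FF t) = s ∧ T2 z y (FF t) = v ∧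
        (u : ℤ) ∣ FF t) with hS
      set Gt : (s.primeFactors → Fin 3 × Bool) → ℝ :=
        fun τ => (NL s (LT (exf s τ)) : ℝ) ^ 2 with hG
      have hG0 : ∀ τ, 0 ≤ Gt τ := fun τ => by rw [hG]; positivity
      set tt : ℤ × ℤ → (s.primeFactors → Fin 3 × Bool) := fun t p => ty t p.1 with htt
      have hex : ∀ t, NL s (LT (exf s (tt t))) = NL s (LT (ty t)) := by
        intro t
        apply NL_congr
        intro p hp
        have : exf s (tt t) p = ty t p := by
          unfold exf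
          rw [dif_pos hp]
        unfold UF.LT
        rw [this]
      have h1 : ∀ t ∈ S, RR t ≤
          16 ^ (z + 2) * (16 ^ L1) ^ k * 16 ^ v.primeFactors.card * Gt (tt t) := by
        intro t ht
        rw [hS, mem_filter] at ht
        obtain ⟨ht1, hts, htv, _⟩ := ht
        unfold SS at ht1
        rw [mem_filter] at ht1
        have hN : (FF t).natAbs < (y + 1) ^ (k * L1) := by
          calc (FF t).natAbs ≤ X ^ L1 := size (by omega) hx1 hx2 ht1.1
            _ < ((y + 1) ^ k) ^ L1 := Nat.pow_lt_pow_left hXk (by omega)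
            _ = _ := by rw [← pow_mul]
        have hr := rank (z := z) (by omega) (t := t) (y := y) (N := k * L1) (by omega) ht1.2 hN
        rw [hts, htv] at hr
        have hr' : (Run7.h318.SH.RR t.1 t.2 : ℝ) ≤
            4 ^ (z + 2) * 4 ^ (k * L1) * 4 ^ (v.primeFactors.card) *
              (NL s (LT (ty t)) : ℝ) := by exact_mod_cast hr
        have h2 : RR t = ((Run7.h318.SH.RR t.1 t.2 : ℝ)) ^ 2 := rfl
        rw [h2]
        refine (pow_le_pow_left₀ (by positivity) hr' 2).trans (le_of_eq ?_)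
        rw [hG]
        simp only
        rw [hex, mul_pow, mul_pow, mul_pow, ← pow_mul, ← pow_mul, ← pow_mul,
          mul_comm (z + 2) 2, mul_comm (k * L1) 2, mul_comm v.primeFactors.card 2,
          pow_mul, pow_mul (4 : ℝ) 2 (k * L1), pow_mul (4 : ℝ) 2 v.primeFactors.card,
          ← pow_mul (16 : ℝ) L1 k, mul_comm L1 k]
        norm_num
      have h2 : ∑ t ∈ S, Gt (tt t) = ∑ τ : s.primeFactors → Fin 3 × Bool,
            ((S.filter (fun t : ℤ × ℤ => tt t = τ)).card : ℝ) * Gt τ := by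
        rw [← sum_fiberwise_of_maps_to (t := univ) (g := tt) (fun t _ => mem_univ _)]
        refine sum_congr rfl fun E _ => ?_
        rw [← nsmul_eq_mul, ← sum_const]
        refine sum_congr rfl fun t ht => ?_
        rw [(mem_filter.1 ht).2]
      set W : ℝ := C * X ^ 2 * gm (fun p => 1 / (2 * ((p : ℝ) - 3))) s * (gm bv v / v) * gm bu u /
        (Real.log y) ^ 3 with hW
      have h3 : ∀ τ : s.primeFactors → Fin 3 × Bool,
          ((S.filter (fun t : ℤ × ℤ => tt t = τ)).card : ℝ) * Gt τ ≤ W * Gt τ := by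
        intro τ
        refine mul_le_mul_of_nonneg_right ?_ (hG0 τ)
        refine le_trans ?_ (hcn x X y Y hy00 hzy hyK s v u hs hv hu hsvu (exf s τ))
        have h4 : S.filter (fun t : ℤ × ℤ => tt t = τ) ⊆
            (Bx x X).filter (fun t : ℤ × ℤ => (T1 z y (FF t) = s ∧ T2 z y (FF t) = v ∧
              (u : ℤ) ∣ FF t) ∧ ∀ p ∈ s.primeFactors, ty t p = exf s τ p) := by
          intro t ht
          rw [mem_filter, hS, mem_filter] at ht
          unfold SS at ht
          rw [mem_filter] at ht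
          obtain ⟨⟨⟨h5, h6⟩, h7⟩, h10⟩ := ht
          rw [mem_filter]
          refine ⟨h5, h7, fun p hp => ?_⟩
          unfold exf
          rw [dif_pos hp, ← h10]
        exact_mod_cast card_le_card h4
      have hgs : GS s * gm bb s = gm (fun p => 1 / (2 * ((p : ℝ) - 3))) s *
          ∑ τ : s.primeFactors → Fin 3 × Bool, Gt τ := by
        unfold GS
        have h0 : (1 / 6 : ℝ) ^ s.primeFactors.card * gm bb s =
            gm (fun p => 1 / (2 * ((p : ℝ) - 3))) s := by
          unfold gm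
          rw [← prod_const, ← prod_mul_distrib]
          refine prod_congr rfl fun p _ => ?_
          unfold bb
          beta_reduce
          rw [one_div, one_div, mul_inv, div_eq_mul_inv, ← mul_assoc]
          norm_num
        rw [← h0, hG]
        ring
      calc ∑ t ∈ S, RR t
          ≤ ∑ t ∈ S, 16 ^ (z + 2) * (16 ^ L1) ^ k * 16 ^ v.primeFactors.card * Gt (tt t) :=
            sum_le_sum h1
        _ = 16 ^ (z + 2) * (16 ^ L1) ^ k * 16 ^ v.primeFactors.card *
              ∑ τ : s.primeFactors → Fin 3 × Bool,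
                ((S.filter (fun t : ℤ × ℤ => tt t = τ)).card : ℝ) * Gt τ := by
            rw [← mul_sum, h2]
        _ ≤ 16 ^ (z + 2) * (16 ^ L1) ^ k * 16 ^ v.primeFactors.card *
              ∑ τ : s.primeFactors → Fin 3 × Bool, W * Gt τ :=
            mul_le_mul_of_nonneg_left (sum_le_sum fun τ _ => h3 τ) (by positivity)
        _ = _ := by
            have e2 : NA.bV bv 16 v = 16 ^ v.primeFactors.card * (gm bv v / v) := rfl
            rw [← mul_sum, hgs, e2, hW]
            ring)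
  refine ⟨X0 + y1, B, fun x X hx1 hx2 hX => ?_⟩
  exact hB x X ⟨⟨hx1, hx2⟩, by omega⟩ (by omega)

/-- **the average over all the squares** -/
theorem box (L : ℕ) : ∃ C : ℝ, 0 ≤ C ∧ ∀ (x : ℤ × ℤ) (X : ℕ), 1 ≤ X → x.1.natAbs ≤ X ^ L →
    x.2.natAbs ≤ X ^ L → ∑ t ∈ SS x X, RR t ≤ C * (X : ℝ) ^ 2 := by
  classical
  obtain ⟨X0, B, hB⟩ := box0 L
  set P := (Icc (-((X0 ^ L + X0 : ℕ) : ℤ)) ((X0 ^ L + X0 : ℕ) : ℤ)) ×ˢ
    (Icc (-((X0 ^ L + X0 : ℕ) : ℤ)) ((X0 ^ L + X0 : ℕ) : ℤ)) with hP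
  set D : ℝ := ∑ t ∈ P, RR t with hD
  have hD0 : 0 ≤ D := sum_nonneg fun t _ => RR_nonneg t
  refine ⟨|B| + D, by positivity, fun x X hX h1 h2 => ?_⟩
  have hXr : (1 : ℝ) ≤ (X : ℝ) ^ 2 := one_le_pow₀ (by exact_mod_cast hX)
  have hX0 : (0 : ℝ) ≤ (X : ℝ) ^ 2 := by positivity
  rcases Nat.lt_or_ge X X0 with h | h
  · have hsub : SS x X ⊆ P := by
      intro t ht
      unfold SS Bx at ht
      rw [mem_filter, mem_product, mem_Ioc, mem_Ioc] at ht
      rw [hP, mem_product, mem_Icc, mem_Icc]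
      have h3 : X ^ L ≤ X0 ^ L := Nat.pow_le_pow_left h.le L
      refine ⟨⟨?_, ?_⟩, ?_, ?_⟩ <;> omega
    calc ∑ t ∈ SS x X, RR t ≤ D := sum_le_sum_of_subset_of_nonneg hsub fun t _ _ => RR_nonneg t
      _ ≤ D * (X : ℝ) ^ 2 := le_mul_of_one_le_right hD0 hXr
      _ ≤ (|B| + D) * (X : ℝ) ^ 2 := by
          apply mul_le_mul_of_nonneg_right _ hX0
          have := abs_nonneg B
          linarith
  · refine (hB x X h1 h2 h).trans ?_
    apply mul_le_mul_of_nonneg_right _ hX0
    have := le_abs_self B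
    linarith

end Run7.h318.SF
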