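import Mathlib
import Pool.Agent.Run7.h318.SF.T2

/-!
# Products of elliptic curves: ranks, the Tate-Shafarevich group, and moments over products of twists
-/

set_option autoImplicit false

namespace Run7.h318.SF.PR

open Module

/-- the rank of a product -/
lemma rank_prod_le (A B : Type) [AddCommGroup A] [AddCommGroup B] :
    Module.rank ℤ (A × B) = Module.rank ℤ A + Module.rank ℤ B := by
  have h := rank_quotient_add_rank_of_isDomain (R := ℤ) (M := A × B)
    (LinearMap.ker (LinearMap.snd ℤ A B))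
  have e1 : ((A × B) ⧸ LinearMap.ker (LinearMap.snd ℤ A B)) ≃ₗ[ℤ] B :=
    (LinearMap.snd ℤ A B).quotKerEquivOfSurjective LinearMap.snd_surjective
  have e2 : LinearMap.ker (LinearMap.snd ℤ A B) ≃ₗ[ℤ] A := by
    refine LinearEquiv.symm (LinearEquiv.ofBijective
      (LinearMap.codRestrict _ (LinearMap.inl ℤ A B) (fun a => by simp)) ⟨?_, ?_⟩)
    · intro a b hab
      have := congrArg Subtype.val hab
      simpa using this
    · rintro ⟨⟨a, b⟩, hb⟩
      rw [LinearMap.mem_ker, LinearMap.snd_apply] at hb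
      subst hb
      exact ⟨a, rfl⟩
  rw [LinearEquiv.rank_eq e1, LinearEquiv.rank_eq e2] at h
  rw [← h, add_comm]

lemma finrank_prod_le (A B : Type) [AddCommGroup A] [AddCommGroup B] :
    Module.finrank ℤ (A × B) ≤ Module.finrank ℤ A + Module.finrank ℤ B := by
  unfold Module.finrank
  rw [rank_prod_le]
  by_cases hA : Module.rank ℤ A < Cardinal.aleph0
  · by_cases hB : Module.rank ℤ B < Cardinal.aleph0
    · exact (Cardinal.toNat_add hA hB).le
    · rw [Cardinal.toNat_apply_of_aleph0_le]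
      · exact Nat.zero_le _
      · exact (not_lt.1 hB).trans le_add_self
  · rw [Cardinal.toNat_apply_of_aleph0_le]
    · exact Nat.zero_le _
    · exact (not_lt.1 hA).trans le_self_add

lemma finrank_pi_le (r : ℕ) (A : Fin r → Type) [∀ i, AddCommGroup (A i)] :
    Module.finrank ℤ (∀ i, A i) ≤ ∑ i, Module.finrank ℤ (A i) := by
  induction r with
  | zero =>
    rw [Module.finrank_zero_of_subsingleton]
    exact Nat.zero_le _
  | succ r ih =>
    have e := Fin.consLinearEquiv ℤ A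
    rw [Fin.sum_univ_succ, ← LinearEquiv.finrank_eq e]
    exact (finrank_prod_le _ _).trans (Nat.add_le_add_left (ih _) _)

lemma card_pi_two (r : ℕ) (A : Fin r → Type) [∀ i, AddCommGroup (A i)] :
    Nat.card {c : ∀ i, A i // c + c = 0} = ∏ i, Nat.card {c : A i // c + c = 0} := by
  rw [← Nat.card_pi]
  refine Nat.card_congr ⟨fun c i => ⟨c.1 i, congrFun c.2 i⟩, fun c => ⟨fun i => (c i).1,
    funext fun i => (c i).2⟩, fun c => rfl, fun c => rfl⟩

open Finset Polynomial
open Run7.h69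

lemma prod_pow_le {r : ℕ} (hr : 0 < r) (k : ℕ) (x : Fin r → ℝ) (hx : ∀ i, 0 ≤ x i) :
    (∏ i, x i) ^ k ≤ ∑ i, x i ^ (r * k) := by
  obtain ⟨j, -, hj⟩ := exists_max_image (univ : Finset (Fin r)) x ⟨⟨0, hr⟩, mem_univ _⟩
  have h1 : ∏ i, x i ≤ x j ^ r := by
    calc ∏ i, x i ≤ ∏ _i : Fin r, x j := prod_le_prod (fun i _ => hx i) fun i _ => hj i (mem_univ _)
      _ = x j ^ r := by rw [prod_const, card_univ, Fintype.card_fin]
  calc (∏ i, x i) ^ k ≤ (x j ^ r) ^ k := pow_le_pow_left₀ (prod_nonneg fun i _ => hx i) h1 k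
    _ = x j ^ (r * k) := (pow_mul _ _ _).symm
    _ ≤ ∑ i, x i ^ (r * k) :=
        single_le_sum (f := fun i => x i ^ (r * k)) (fun i _ => pow_nonneg (hx i) _) (mem_univ j)

/-- the moments over the products -/
theorem prods {r : ℕ} (a b : Fin r → ℤ) (ha : ∀ i, a i ≠ 0) (hb : ∀ i, b i ≠ 0)
    (hab : ∀ i, a i ≠ b i) (f : Fin r → ℤ[X]) (k M : ℕ) :
    ∃ C : ℝ, ∀ (x : ℤ) (X : ℕ), 1 ≤ X → x.natAbs ≤ X ^ M →
      ∑ t ∈ (Ioc x (x + X)).filter (fun t => ∀ i, (f i).eval t ≠ 0),
        (∏ i, TM.rr (a i) (b i) ((f i).eval t)) ^ k ≤ C * X := by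
  classical
  rcases Nat.eq_zero_or_pos r with hr | hr
  · subst hr
    refine ⟨1, fun x X _ _ => ?_⟩
    have h1 : ∀ t ∈ (Ioc x (x + X)).filter (fun t => ∀ i, (f i).eval t ≠ 0),
        (∏ i, TM.rr (a i) (b i) ((f i).eval t)) ^ k = 1 := by
      intro t _
      simp
    rw [sum_congr rfl h1, sum_const, nsmul_eq_mul, mul_one, one_mul]
    have h3 : ((Ioc x (x + X)).filter (fun t => ∀ i, (f i).eval t ≠ 0)).card ≤ X := by
      refine (card_filter_le _ _).trans ?_
      rw [Int.card_Ioc]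
      simp
    exact_mod_cast h3
  choose C hC using fun i => TM.main (ha i) (hb i) (hab i) (f i) (r * k) M
  refine ⟨∑ i, C i, fun x X hX hx => ?_⟩
  calc ∑ t ∈ (Ioc x (x + X)).filter (fun t => ∀ i, (f i).eval t ≠ 0),
        (∏ i, TM.rr (a i) (b i) ((f i).eval t)) ^ k
      ≤ ∑ t ∈ (Ioc x (x + X)).filter (fun t => ∀ i, (f i).eval t ≠ 0),
        ∑ i, TM.rr (a i) (b i) ((f i).eval t) ^ (r * k) :=
        sum_le_sum fun t _ => prod_pow_le hr k _ fun i => TM.rr_nonneg _ _ _
    _ = ∑ i, ∑ t ∈ (Ioc x (x + X)).filter (fun t => ∀ i, (f i).eval t ≠ 0),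
        TM.rr (a i) (b i) ((f i).eval t) ^ (r * k) := sum_comm
    _ ≤ ∑ i, C i * X := by
        refine sum_le_sum fun i _ => le_trans ?_ (hC i x X hX hx)
        refine sum_le_sum_of_subset_of_nonneg ?_ fun t _ _ => pow_nonneg (TM.rr_nonneg _ _ _) _
        intro t ht
        unfold NX.II
        rw [mem_filter] at ht ⊢
        exact ⟨ht.1, ht.2 i⟩
    _ = _ := by rw [sum_mul]

end Run7.h318.SF.PR
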